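import Pool.Agent.Lib.MP_63944b_al.TL2

set_option autoImplicit false
open CategoryTheory

namespace Pool.Agent.Results.MP_63944b_al.LengthBound

/-- Let `R` be a commutative artinian ring, `E` an injective hull of `R / J(R)`, that is, the dual
`D(R)` of the regular module, generated by `e_1, ..., e_r` (`r ≥ 1`), and let `I` be an ideal
containing all coefficients of all relations between the `e_j` (for `R` local and a minimal
generating system, the maximal ideal will do). If `Ext^1_R(E, R) = 0` then
`(r + 1) length(R / I^2) + (r - 1) length(R / I) ≤ 2 length(R)`. -/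
theorem result (R : Type) [CommRing R] [IsArtinianRing R] [HasExt.{0} (ModuleCat.{0} R)]
    (E : Type) [AddCommGroup E] [Module R E] (hE : Module.Injective R E)
    (f : (R ⧸ (⊥ : Ideal R).jacobson) →ₗ[R] E) (hf : Function.Injective f)
    (hess : ∀ N : Submodule R E, N ≠ ⊥ → N ⊓ LinearMap.range f ≠ ⊥)
    (r : ℕ) (hr : 0 < r) (e : Fin r → E) (hgen : Submodule.span R (Set.range e) = ⊤)
    (I : Ideal R) (hI : ∀ a : Fin r → R, ∑ j, a j • e j = 0 → ∀ j, a j ∈ I)
    (h1 : Subsingleton (Abelian.Ext.{0} (ModuleCat.of R E) (ModuleCat.of R R) 1)) :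
    (r + 1 : ℕ) * Module.length R (R ⧸ I ^ 2) + (r - 1 : ℕ) * Module.length R (R ⧸ I)
      ≤ 2 * Module.length R R :=
  TT63.length_ineq ⟨hE, f, hf, hess⟩ hr e hgen I hI h1

end Pool.Agent.Results.MP_63944b_al.LengthBound
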