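import Pool.Agent.Lib.MP_63944b_al.NL4

set_option autoImplicit false
open CategoryTheory Module

namespace Pool.Agent.Results.MP_63944b_al.LocalLength

/-- Let `R` be a finite dimensional local algebra over a field `k`, possibly noncommutative, with
`R / J = k`: `ε : R → k` is the augmentation and its kernel `J` is nilpotent. Let `S` be the right
socle `{x | x J = 0}` and `S'` the left socle `{x | J x = 0}`, of dimensions `r` and `r'`. Let `Q`
be the left module `D(R) = Hom_k(R, k)`. If `Ext^1_R(D(R), R) = 0` then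
`r r' (dim R + 1) ≤ (r + r') dim R + r r' dim J^2`. -/
theorem result (k : Type) [Field k] (R : Type) [Ring R] [Algebra k R] [Module.Finite k R]
    [HasExt.{0} (ModuleCat.{0} R)] (ε : R →ₐ[k] k)
    (hnil : ∃ n : ℕ, (LinearMap.ker ε.toLinearMap) ^ n = ⊥)
    (S S' : Submodule k R) (hS : ∀ x, x ∈ S ↔ ∀ a, ε a = 0 → x * a = 0)
    (hS' : ∀ x, x ∈ S' ↔ ∀ a, ε a = 0 → a * x = 0)
    (Q : ModuleCat.{0} R) (φ : Q ≃+ (R →ₗ[k] k))
    (hφ : ∀ (r : R) (q : Q) (x : R), φ (r • q) x = φ q (x * r))
    (hExt : Subsingleton (Abelian.Ext.{0} Q (ModuleCat.of R R) 1)) :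
    finrank k S * finrank k S' * (finrank k R + 1)
      ≤ (finrank k S + finrank k S') * finrank k R
        + finrank k S * finrank k S' *
          finrank k (LinearMap.ker ε.toLinearMap * LinearMap.ker ε.toLinearMap : Submodule k R) :=
  NL63.ineq_local ε hnil S S' hS hS' Q φ hφ hExt

end Pool.Agent.Results.MP_63944b_al.LocalLength
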