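import Pool.Agent.Lib.MP_63944b_al.TR2

set_option autoImplicit false
open CategoryTheory

namespace Pool.Agent.Results.MP_63944b_al.TraceIdeal

/-- Let `R` be a commutative artinian ring, `E` an injective hull of `R / J(R)`, that is, the dual
`D(R)` of the regular module, generated by `e_1, ..., e_r`, and let `I` be an ideal containing all
coefficients of all relations between the `e_j` (for `R` local and a minimal generating system,
the maximal ideal will do). Suppose `Ext^1_R(E, R) = 0` and, if `r ≤ 2`, also `Ext^2_R(E, R) = 0`.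
If some homomorphism `E → R` takes a value outside `I^2` then `R` is selfinjective. -/
theorem result (R : Type) [CommRing R] [IsArtinianRing R] [HasExt.{0} (ModuleCat.{0} R)]
    (E : Type) [AddCommGroup E] [Module R E] (hE : Module.Injective R E)
    (f : (R ⧸ (⊥ : Ideal R).jacobson) →ₗ[R] E) (hf : Function.Injective f)
    (hess : ∀ N : Submodule R E, N ≠ ⊥ → N ⊓ LinearMap.range f ≠ ⊥)
    (r : ℕ) (e : Fin r → E) (hgen : Submodule.span R (Set.range e) = ⊤)
    (I : Ideal R) (hI : ∀ a : Fin r → R, ∑ j, a j • e j = 0 → ∀ j, a j ∈ I)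
    (h1 : Subsingleton (Abelian.Ext.{0} (ModuleCat.of R E) (ModuleCat.of R R) 1))
    (h2 : r ≤ 2 → Subsingleton (Abelian.Ext.{0} (ModuleCat.of R E) (ModuleCat.of R R) 2))
    (φ : E →ₗ[R] R) (x : E) (hx : φ x ∉ I ^ 2) :
    Module.Injective R R :=
  TT63.trace_main ⟨hE, f, hf, hess⟩ e hgen I hI h1 (by rw [Fintype.card_fin]; exact h2) φ x hx

end Pool.Agent.Results.MP_63944b_al.TraceIdeal
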