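import Pool.Agent.Lib.MP_63944b_al.TT6

set_option autoImplicit false
open CategoryTheory

namespace Pool.Agent.Results.MP_63944b_al.TypeTwo

/-- Let `R` be a commutative artinian ring and `E` an injective hull of `R / J(R)`, that is, the
dual `D(R)` of the regular module. If `E` is generated by two elements (all local factors of `R`
have type at most two) and `Ext^2_R(E, R) = 0` then `R` is selfinjective. -/
theorem result (R : Type) [CommRing R] [IsArtinianRing R] [HasExt.{0} (ModuleCat.{0} R)]
    (E : Type) [AddCommGroup E] [Module R E] (hE : Module.Injective R E)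
    (f : (R ⧸ (⊥ : Ideal R).jacobson) →ₗ[R] E) (hf : Function.Injective f)
    (hess : ∀ N : Submodule R E, N ≠ ⊥ → N ⊓ LinearMap.range f ≠ ⊥)
    (x y : E) (hgen : ∀ e : E, ∃ a b : R, e = a • x + b • y)
    (hExt : Subsingleton (Abelian.Ext.{0} (ModuleCat.of R E) (ModuleCat.of R R) 2)) :
    Module.Injective R R :=
  TT63.main ⟨hE, f, hf, hess⟩ x y hgen hExt

end Pool.Agent.Results.MP_63944b_al.TypeTwo
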